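import Mathlib
import Pool.Agent.Lib.MP_d118f9_ag_G.Top

/-!
# MP_d118f9_ag, Q1: Green's conjecture for all curves of bounded gonality and large genus
-/

set_option autoImplicit false

namespace Pool.Agent.Results.MP_d118f9_ag.BoundedGonality

open Pool.Agent.MPd118f9

/-- Let `k` be an algebraically closed field of characteristic zero and `d` a natural number. There
is a number `N` such that for every smooth projective curve `X` over `k` (function field `K`) of
gonality at most `d` and genus at least `N` the canonical bundle of `X` satisfies `(N_p)` for every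
`p < Cliff(X)`; more precisely `Cliff(X) ≤ gon(X) - 2` and `(N_p)` holds for all
`p ≤ gon(X) - 3`. -/
theorem result (k : Type) [Field k] [IsAlgClosed k] [CharZero k] (d : ℕ) :
    ∃ N : ℕ, ∀ (K : Type) [Field K] [Algebra k K], IsCurve k K → gon k K ≤ d → N ≤ genus k K →
      ∀ W : Dv k K, IsCan W → (∀ p : ℕ, p < cliff W → Np W p) ∧
        cliff W + 2 ≤ gon k K ∧ ∀ p : ℕ, p + 3 ≤ gon k K → Np W p :=
  green_gonality k d

end Pool.Agent.Results.MP_d118f9_ag.BoundedGonality
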