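import Mathlib
import Pool.Agent.Lib.MP_d118f9_ag_R.PCd

/-!
# MP_d118f9_ag, Q1: Green's conjecture for curves with a pencil of degree `d` whose multiple
`(d - 1) E` has only `d` sections
-/

set_option autoImplicit false

namespace Pool.Agent.Results.MP_d118f9_ag.Pencils

open Pool.Agent.MPd118f9

/-- Let `X` be a smooth projective curve (function field `K`) over an algebraically closed field of
characteristic zero, `z` a nonconstant function on `X`, `E` its divisor of poles and `c ≥ 1`. If
`deg E ≥ c + 2` and `l((c + 1) E) = c + 2` (the smallest possible value) then the canonical bundle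
of `X` satisfies `(N_p)` for every `p < c`. If moreover `deg E = c + 2` then `Cliff(X) ≤ c`, so
Green's conjecture holds for `X`. -/
theorem result {k K : Type} [Field k] [IsAlgClosed k] [CharZero k] [Field K] [Algebra k K]
    (hK : IsCurve k K) {z : K} (hz : ∀ a : k, z ≠ algebraMap k K a) {c : ℕ} (hc : 1 ≤ c)
    (hd : (c : ℤ) + 2 ≤ deg (poles k z)) (hl : ell ((c + 1) • poles k z) = c + 2) {W : Dv k K}
    (hW : IsCan W) :
    (∀ p < c, Np W p) ∧
      (deg (poles k z) = (c : ℤ) + 2 → cliff W ≤ c ∧ ∀ p < cliff W, Np W p) := by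
  obtain ⟨h1, h2⟩ := pencil_np hK hz hc hd hl hW
  exact ⟨h1, fun h => ⟨h2 h, fun p hp => h1 p (hp.trans_le (h2 h))⟩⟩

end Pool.Agent.Results.MP_d118f9_ag.Pencils
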